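import Pool.Agent.Q319.VE.Main

set_option autoImplicit false

/-! The trichotomy for automatic subsets of `ℤ` fails for every base `k ≥ 2`: none of the three
alternatives holds for the set of the integers of even `k`-adic order. -/

namespace Pool.Agent.Results.MP_df2971_lc.NoTrichotomy

open FirstOrder FirstOrder.Language Pool.Agent.Q319.VE

/-! ### the notions of the problem -/

/-- Definability with parameters of a subset of `ℤ^n` in a structure with universe `ℤ`. -/
def Dfn {L : FirstOrder.Language.{0, 0}} (S : L.Structure ℤ) {n : ℕ} (D : Set (Fin n → ℤ)) : Prop :=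
  letI := S
  (Set.univ : Set ℤ).Definable L D

/-- Stability of a structure: no formula has the order property (there are no formula `φ(x; y)` and,
for every `N`, tuples `a_i, b_j`, `i, j < N`, with `φ(a_i; b_j) ↔ i < j`). -/
def IsStable {L : FirstOrder.Language.{0, 0}} (S : L.Structure ℤ) : Prop :=
  letI := S
  ¬ ∃ (p q : ℕ) (φ : L.Formula (Fin p ⊕ Fin q)), ∀ N : ℕ,
    ∃ (a : Fin N → Fin p → ℤ) (b : Fin N → Fin q → ℤ),
      ∀ i j, φ.Realize (Sum.elim (a i) (b j)) ↔ i < j

/-- the relation symbols `<` and `P` -/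
inductive LtP : ℕ → Type
  | lt : LtP 2
  | P : LtP 1

/-- the language of `(ℤ, <, +, k^ℕ)` -/
def LP : FirstOrder.Language.{0, 0} := ⟨AddFn, LtP⟩

/-- the structure `(ℤ, <, +, k^ℕ)` -/
@[instance_reducible]
def strP (k : ℕ) : LP.Structure ℤ where
  funMap := fun {n} f => match n, f with
    | _, AddFn.add => fun v => v 0 + v 1
  RelMap := fun {n} r => match n, r with
    | _, LtP.lt => fun v => v 0 < v 1
    | _, LtP.P => fun v => ∃ j : ℕ, v 0 = (k : ℤ) ^ j

/-- `V_k(n)` is the largest power of `k` dividing `n`, for `n ≠ 0`; `V_k(0) = 1`. -/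
noncomputable def Vk (k : ℕ) (n : ℤ) : ℤ := if n = 0 then 1 else (k : ℤ) ^ multiplicity (k : ℤ) n

/-- The base `k` expansion of an integer, most significant digit first, with a leading symbol `-`
(which is `none`) for negative integers; the digit `d` is `some d`. -/
def expansion (k : ℕ) (n : ℤ) : List (Option ℕ) :=
  if n = 0 then [some 0]
  else (if n < 0 then [none] else []) ++ (Nat.digits k n.natAbs).reverse.map some

/-- The set is recognized by a finite automaton over the alphabet `{-, 0, …, k-1}`. -/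
def Recognized (k : ℕ) (X : Set ℤ) : Prop :=
  ∃ (σ : Type) (_ : Fintype σ) (M : DFA (Option (Fin k)) σ), ∀ w : List (Option (Fin k)),
    w ∈ M.accepts ↔ ∃ n ∈ X, w.map (Option.map Fin.val) = expansion k n

/-! ### undefinability -/

theorem scale_big {k : ℕ} (hk : 2 ≤ k) {n : ℕ} (hn : 1 ≤ n) : (k : ℤ) ^ n < scale k n := by
  unfold scale
  have h1 : (k : ℤ) ^ n < (k : ℤ) ^ (2 * n) := by
    apply pow_lt_pow_right₀
    · exact_mod_cast (by omega : 1 < k)
    · omega
  have h2 : (1 : ℤ) ≤ (n.factorial : ℤ) := by exact_mod_cast Nat.factorial_pos n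
  have h3 : (0 : ℤ) < (k : ℤ) ^ (2 * n) := by positivity
  calc (k : ℤ) ^ n < (k : ℤ) ^ (2 * n) * 1 := by rwa [mul_one]
    _ ≤ _ := mul_le_mul_of_nonneg_left h2 h3.le

theorem not_def_lt {k : ℕ} (hk : 2 ≤ k) : ¬ Dfn (strX (Xk k)) {v : Fin 2 → ℤ | v 0 < v 1} := by
  intro h
  let _ := strX (Xk k)
  have h' : (Set.univ : Set ℤ).Definable LX {v : Fin 2 → ℤ | v 0 < v 1} := h
  rw [Set.definable_iff_exists_formula_sum] at h'
  obtain ⟨φ, hφ⟩ := h'
  let ψ : LX.Formula (ℤ ⊕ Fin 2) := φ.relabel (Sum.map Subtype.val id)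
  have hψ : ∀ a b : ℤ, ψ.Realize (Sum.elim id ![a, b]) ↔ a < b := by
    intro a b
    have h1 : (![a, b] : Fin 2 → ℤ) ∈ {v : Fin 2 → ℤ | v 0 < v 1} ↔ a < b := Iff.rfl
    rw [← h1, hφ, Formula.realize_relabel]
    apply iff_of_eq
    congr 1
    funext i
    rcases i with i | i <;> rfl
  have h2 := transfer hk ψ (fun _ => 0) (fun n => (k : ℤ) ^ n) (fun _ => 0)
    (fun n => (k : ℤ) ^ n - scale k n) (fun g h3 h4 => ⟨h3 0, h4⟩) (fun n => by
      rw [hψ]
      positivity)
  obtain ⟨n, h5, h6⟩ := (h2.and (ev_ge 1)).exists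
  rw [hψ] at h5
  have := scale_big hk h6
  omega

theorem not_def_V {k : ℕ} (hk : 2 ≤ k) : ¬ Dfn (strX (Xk k)) {v : Fin 2 → ℤ | v 1 = Vk k (v 0)} := by
  intro h
  let _ := strX (Xk k)
  have h' : (Set.univ : Set ℤ).Definable LX {v : Fin 2 → ℤ | v 1 = Vk k (v 0)} := h
  rw [Set.definable_iff_exists_formula_sum] at h'
  obtain ⟨φ, hφ⟩ := h'
  let ψ : LX.Formula (ℤ ⊕ Fin 2) := φ.relabel (Sum.map Subtype.val id)
  have hψ : ∀ a b : ℤ, ψ.Realize (Sum.elim id ![a, b]) ↔ b = Vk k a := by
    intro a b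
    have h1 : (![a, b] : Fin 2 → ℤ) ∈ {v : Fin 2 → ℤ | v 1 = Vk k (v 0)} ↔ b = Vk k a := Iff.rfl
    rw [← h1, hφ, Formula.realize_relabel]
    apply iff_of_eq
    congr 1
    funext i
    rcases i with i | i <;> rfl
  have h2 := transfer hk ψ (fun n => (k : ℤ) ^ n) (fun n => (k : ℤ) ^ n)
    (fun n => (k : ℤ) ^ n - scale k n)
    (fun n => (k : ℤ) ^ n - scale k n) (fun g h3 h4 => ⟨h4, h4⟩) (fun n => by
      rw [hψ]
      have hk0 : (k : ℤ) ≠ 0 := by exact_mod_cast (by omega : k ≠ 0)
      unfold Vk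
      rw [if_neg (pow_ne_zero n hk0), multiplicity_pow_self hk0]
      rw [Int.isUnit_iff]
      omega)
  obtain ⟨n, h5, h6⟩ := (h2.and (ev_ge 1)).exists
  rw [hψ] at h5
  have h7 := scale_big hk h6
  have h8 : 0 < Vk k ((k : ℤ) ^ n - scale k n) := by
    unfold Vk
    split_ifs
    · norm_num
    · positivity
  omega

/-- the symbol `<` of `LP` -/
def ltSym : LP.Relations 2 := LtP.lt

/-- the symbol `X` of `LX` -/
def xSym : LX.Relations 1 := XRel.X

/-- the symbol `+` of `LX` -/
def addSym : LX.Functions 2 := AddFn.add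

theorem def_lt (k : ℕ) : Dfn (strP k) {v : Fin 2 → ℤ | v 0 < v 1} := by
  let _ := strP k
  show (Set.univ : Set ℤ).Definable LP {v : Fin 2 → ℤ | v 0 < v 1}
  have h : (∅ : Set ℤ).Definable LP {v : Fin 2 → ℤ | v 0 < v 1} := by
    rw [Set.empty_definable_iff]
    refine ⟨Relations.formula ltSym fun i => Term.var i, ?_⟩
    ext v
    rw [Set.mem_ofPred_eq, Set.mem_ofPred_eq, Formula.realize_rel]
    exact Iff.rfl
  exact h.mono (Set.empty_subset _)

/-! ### instability -/

/-- the formula `X(x + y)` -/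
def phi : LX.Formula (Fin 1 ⊕ Fin 1) :=
  Relations.formula xSym fun _ =>
    Term.func addSym ![Term.var (Sum.inl 0), Term.var (Sum.inr 0)]

theorem realize_phi (X : Set ℤ) (a b : Fin 1 → ℤ) :
    letI := strX X; phi.Realize (Sum.elim a b) ↔ a 0 + b 0 ∈ X := by
  let _ := strX X
  unfold phi
  rw [Formula.realize_rel]
  exact Iff.rfl

theorem sum_mem {k : ℕ} (hk : 2 ≤ k) (i j : ℕ) :
    (k : ℤ) ^ (2 * (i + 1)) + (k : ℤ) ^ (2 * j + 1) ∈ Xk k ↔ i < j := by
  have hk1 : ∀ s : ℕ, 1 ≤ s → ¬ (k : ℤ) ∣ 1 + (k : ℤ) ^ s := by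
    intro s hs h
    have h1 : (k : ℤ) ∣ (k : ℤ) ^ s := dvd_pow_self _ (by omega)
    have h2 : (k : ℤ) ∣ 1 := (dvd_add_left h1).1 h
    have := Int.le_of_dvd (by norm_num) h2
    omega
  rw [mem_Xk hk]
  constructor
  · rintro ⟨m, h1, h2⟩
    by_contra hlt
    obtain ⟨s, hs⟩ := Nat.exists_eq_add_of_le (not_lt.1 hlt)
    -- the order is `2 j + 1`
    have e : (k : ℤ) ^ (2 * (i + 1)) + (k : ℤ) ^ (2 * j + 1) =
        (k : ℤ) ^ (2 * j + 1) * (1 + (k : ℤ) ^ (2 * s + 1)) := by
      rw [hs]
      ring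
    rw [e] at h1 h2
    have h3 : 2 * j + 1 < 2 * m + 1 := by
      by_contra h4
      exact h2 (Dvd.dvd.mul_right (pow_dvd_pow _ (by omega)) _)
    have h5 : (k : ℤ) ^ (2 * j + 1) * k ∣ (k : ℤ) ^ (2 * j + 1) * (1 + (k : ℤ) ^ (2 * s + 1)) := by
      rw [← pow_succ]
      exact (pow_dvd_pow _ (by omega)).trans h1
    have hpos : (k : ℤ) ^ (2 * j + 1) ≠ 0 := by positivity
    exact hk1 _ (by omega) ((mul_dvd_mul_iff_left hpos).1 h5)
  · intro hlt
    obtain ⟨s, hs⟩ := Nat.exists_eq_add_of_lt hlt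
    have e : (k : ℤ) ^ (2 * (i + 1)) + (k : ℤ) ^ (2 * j + 1) =
        (k : ℤ) ^ (2 * (i + 1)) * (1 + (k : ℤ) ^ (2 * s + 1)) := by
      rw [hs]
      ring
    refine ⟨i + 1, ?_, ?_⟩
    · rw [e]
      exact dvd_mul_right _ _
    · rw [e, pow_succ (k : ℤ) (2 * (i + 1))]
      intro h
      have hpos : (k : ℤ) ^ (2 * (i + 1)) ≠ 0 := by positivity
      exact hk1 _ (by omega) ((mul_dvd_mul_iff_left hpos).1 h)

theorem unstable {k : ℕ} (hk : 2 ≤ k) : ¬ IsStable (strX (Xk k)) := by
  intro h
  apply h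
  refine ⟨1, 1, phi, fun N => ⟨fun i _ => (k : ℤ) ^ (2 * (i.1 + 1)),
    fun j _ => (k : ℤ) ^ (2 * j.1 + 1), fun i j => ?_⟩⟩
  exact (realize_phi _ _ _).trans (sum_mem hk i.1 j.1)

/-! ### recognizability -/

/-- states of the automaton -/
inductive St | s0 | s1 | q0 | q1 | dead
  deriving DecidableEq

instance : Fintype St := ⟨{.s0, .s1, .q0, .q1, .dead}, by intro x; cases x <;> decide⟩

/-- transitions -/
def step (k : ℕ) : St → Option (Fin k) → St
  | .s0, none => .s1
  | .s0, some d => if d.1 = 0 then .dead else .q0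
  | .s1, none => .dead
  | .s1, some d => if d.1 = 0 then .dead else .q0
  | .q0, none => .dead
  | .q0, some d => if d.1 = 0 then .q1 else .q0
  | .q1, none => .dead
  | .q1, some d => if d.1 = 0 then .q0 else .q0
  | .dead, _ => .dead

/-- the automaton -/
def auto (k : ℕ) : DFA (Option (Fin k)) St where
  step := step k
  start := .s0
  accept := {.q0}

/-- signed expansions of natural numbers -/
def E (k : ℕ) (s : Bool) (m : ℕ) : List (Option ℕ) :=
  (if s then [none] else []) ++ (Nat.digits k m).reverse.map some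

theorem E_zero (k : ℕ) (s : Bool) : E k s 0 = if s then [none] else [] := by
  simp [E]

theorem E_add {k : ℕ} (hk : 2 ≤ k) (s : Bool) (m d : ℕ) (hd : d < k) (h : d ≠ 0 ∨ m ≠ 0) :
    E k s (d + k * m) = E k s m ++ [some d] := by
  unfold E
  rw [Nat.digits_add k (by omega) d m hd h]
  simp

open Classical in
/-- the state after reading `E k s m` -/
noncomputable def state (k : ℕ) (s : Bool) (m : ℕ) : St :=
  if m = 0 then (if s then .s1 else .s0) else if (m : ℤ) ∈ Xk k then .q0 else .q1

theorem Xk_digit {k : ℕ} (hk : 2 ≤ k) {m d : ℕ} (hd : d < k) (hd0 : d ≠ 0) :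
    ((d + k * m : ℕ) : ℤ) ∈ Xk k := by
  rw [mem_Xk hk]
  refine ⟨0, by simp, ?_⟩
  rw [mul_zero, zero_add, pow_one]
  intro h
  have h1 : k ∣ d + k * m := by exact_mod_cast h
  have h2 : k ∣ d := (Nat.dvd_add_left (dvd_mul_right k m)).1 h1
  have := Nat.le_of_dvd (Nat.pos_of_ne_zero hd0) h2
  omega

theorem Xk_zero_digit {k : ℕ} (hk : 2 ≤ k) {m : ℕ} (hm : m ≠ 0) :
    ((0 + k * m : ℕ) : ℤ) ∈ Xk k ↔ (m : ℤ) ∉ Xk k := by
  have hk0 : (k : ℤ) ≠ 0 := by exact_mod_cast (by omega : k ≠ 0)
  have hm0 : (m : ℤ) ≠ 0 := by exact_mod_cast hm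
  have hfin : FiniteMultiplicity (k : ℤ) (m : ℤ) := by
    rw [Int.finiteMultiplicity_iff]
    exact ⟨by simp; omega, hm0⟩
  have h1 : multiplicity (k : ℤ) ((0 + k * m : ℕ) : ℤ) = multiplicity (k : ℤ) (m : ℤ) + 1 := by
    rw [zero_add]
    push_cast
    apply multiplicity_eq_of_dvd_of_not_dvd
    · rw [pow_succ']
      exact mul_dvd_mul_left _ (pow_multiplicity_dvd _ _)
    · rw [pow_succ']
      intro h
      exact hfin.not_pow_dvd_of_multiplicity_lt (Nat.lt_succ_self _)
        ((mul_dvd_mul_iff_left hk0).1 h)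
  unfold Xk
  simp only [Set.mem_ofPred_eq, h1]
  constructor
  · rintro ⟨-, h2⟩ ⟨-, h3⟩
    rw [Nat.even_add_one] at h2
    exact h2 h3
  · intro h2
    refine ⟨?_, ?_⟩
    · rw [zero_add]
      push_cast
      exact mul_ne_zero hk0 hm0
    · rw [Nat.even_add_one]
      exact fun h3 => h2 ⟨hm0, h3⟩

theorem eval_snoc {k : ℕ} (w : List (Option (Fin k))) (a : Option (Fin k)) :
    (auto k).eval (w ++ [a]) = step k ((auto k).eval w) a := by
  rw [DFA.eval_append_singleton]
  rfl

theorem step_state {k : ℕ} (hk : 2 ≤ k) (s : Bool) (m : ℕ) (d : Fin k) (h : d.1 ≠ 0 ∨ m ≠ 0) :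
    step k (state k s m) (some d) = state k s (d.1 + k * m) := by
  have hne : d.1 + k * m ≠ 0 := by
    rcases h with h | h
    · omega
    · have := Nat.mul_pos (show 0 < k by omega) (Nat.pos_of_ne_zero h)
      omega
  unfold state
  rw [if_neg hne]
  by_cases hd : d.1 = 0
  · have hm : m ≠ 0 := by
      rcases h with h | h
      · exact absurd hd h
      · exact h
    rw [if_neg hm, hd]
    by_cases hX : (m : ℤ) ∈ Xk k
    · rw [if_pos hX, if_neg (fun h' => (Xk_zero_digit hk hm).1 h' hX)]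
      simp [step, hd]
    · rw [if_neg hX, if_pos ((Xk_zero_digit hk hm).2 hX)]
      simp [step, hd]
  · rw [if_pos (Xk_digit hk d.2 hd)]
    by_cases hm : m = 0
    · rw [if_pos hm]
      cases s <;> simp [step, hd]
    · rw [if_neg hm]
      by_cases hX : (m : ℤ) ∈ Xk k
      · rw [if_pos hX]; simp [step, hd]
      · rw [if_neg hX]; simp [step, hd]

theorem eval_eq {k : ℕ} (hk : 2 ≤ k) (s : Bool) (m : ℕ) : ∀ w : List (Option (Fin k)),
    w.map (Option.map Fin.val) = E k s m → (auto k).eval w = state k s m := by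
  induction m using Nat.strong_induction_on with
  | _ m ih =>
    intro w hw
    by_cases hm : m = 0
    · subst hm
      rw [E_zero] at hw
      cases s with
      | false =>
        have : w = [] := by simpa using hw
        subst this
        simp [state, auto]
      | true =>
        have h1 : w = [none] := by
          simp only [if_true] at hw
          match w, hw with
          | [none], _ => rfl
        subst h1
        simp [state, auto, step, DFA.eval, DFA.evalFrom]
    · have hmk : m = m % k + k * (m / k) := (Nat.mod_add_div m k).symm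
      have hlt : m % k < k := Nat.mod_lt _ (by omega)
      have hor : m % k ≠ 0 ∨ m / k ≠ 0 := by
        by_contra hcon
        push Not at hcon
        rw [hcon.1, hcon.2] at hmk
        omega
      rw [hmk, E_add hk s _ _ hlt hor, List.map_eq_append_iff] at hw
      obtain ⟨w', l, rfl, h1, h2⟩ := hw
      have hl : l = [some ⟨m % k, hlt⟩] := by
        have hlen : l.length = 1 := by simpa using congrArg List.length h2
        obtain ⟨a, rfl⟩ := List.length_eq_one_iff.1 hlen
        cases a with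
        | none => simp at h2
        | some d =>
          simp only [List.map_cons, List.map_nil, Option.map_some, List.cons.injEq,
            Option.some.injEq, and_true] at h2
          simp [← h2]
      subst hl
      rw [eval_snoc, ih (m / k) (Nat.div_lt_self (Nat.pos_of_ne_zero hm) (by omega)) w' h1,
        step_state hk _ _ _ hor, ← hmk]

theorem exists_E {k : ℕ} (hk : 2 ≤ k) (w : List (Option (Fin k))) (h : (auto k).eval w ≠ .dead) :
    ∃ s m, w.map (Option.map Fin.val) = E k s m := by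
  induction w using List.reverseRecOn with
  | nil => exact ⟨false, 0, by simp [E]⟩
  | append_singleton w a ih =>
    rw [eval_snoc] at h
    have h1 : (auto k).eval w ≠ .dead := by
      intro h'
      rw [h'] at h
      exact h rfl
    obtain ⟨s, m, hw⟩ := ih h1
    have hst := eval_eq hk s m w hw
    rw [hst] at h
    cases a with
    | none =>
      have h2 : m = 0 ∧ s = false := by
        unfold state at h
        split_ifs at h with h3 h4
        · exact absurd rfl h
        · exact ⟨h3, by simpa using h4⟩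
        · exact absurd rfl h
        · exact absurd rfl h
      obtain ⟨rfl, rfl⟩ := h2
      refine ⟨true, 0, ?_⟩
      rw [List.map_append, hw]
      simp [E]
    | some d =>
      refine ⟨s, d.1 + k * m, ?_⟩
      rw [E_add hk s m d.1 d.2, List.map_append, hw]
      · rfl
      · by_contra hcon
        push Not at hcon
        obtain ⟨h3, rfl⟩ := hcon
        apply h
        unfold state
        rw [if_pos rfl]
        cases s <;> simp [step, h3]

theorem neg_mem_Xk {k : ℕ} (hk : 2 ≤ k) {n : ℤ} : -n ∈ Xk k ↔ n ∈ Xk k := by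
  rw [mem_Xk hk, mem_Xk hk]
  simp only [dvd_neg]

theorem natAbs_mem_Xk {k : ℕ} (hk : 2 ≤ k) {n : ℤ} : ((n.natAbs : ℕ) : ℤ) ∈ Xk k ↔ n ∈ Xk k := by
  rcases Int.natAbs_eq n with h | h
  · rw [← h]
  · conv_rhs => rw [h]
    rw [neg_mem_Xk hk]

theorem recognized {k : ℕ} (hk : 2 ≤ k) : Recognized k (Xk k) := by
  refine ⟨St, inferInstance, auto k, fun w => ?_⟩
  rw [DFA.mem_accepts]
  constructor
  · intro h
    have h' : (auto k).eval w = .q0 := h
    obtain ⟨s, m, hw⟩ := exists_E hk w (by rw [h']; decide)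
    have hst := eval_eq hk s m w hw
    rw [h'] at hst
    have hm : m ≠ 0 ∧ (m : ℤ) ∈ Xk k := by
      unfold state at hst
      split_ifs at hst with h1 h2 h3
      exact ⟨h1, h3⟩
    have hm0 : (m : ℤ) ≠ 0 := by exact_mod_cast hm.1
    cases s with
    | false =>
      refine ⟨m, hm.2, ?_⟩
      rw [hw]
      unfold expansion E
      rw [if_neg hm0, if_neg (show ¬ (m : ℤ) < 0 by omega)]
      simp
    | true =>
      refine ⟨-m, (neg_mem_Xk hk).2 hm.2, ?_⟩
      rw [hw]
      unfold expansion E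
      rw [if_neg (show ¬ (-(m : ℤ) = 0) by omega), if_pos (show -(m : ℤ) < 0 by omega)]
      simp
  · rintro ⟨n, hn, hw⟩
    have hn0 : n ≠ 0 := hn.1
    have hE : expansion k n = E k (decide (n < 0)) n.natAbs := by
      unfold expansion E
      rw [if_neg hn0]
      simp
    rw [hE] at hw
    have := eval_eq hk _ _ w hw
    show (auto k).eval w ∈ ({St.q0} : Set St)
    rw [this]
    unfold state
    rw [if_neg (by omega), if_pos ((natAbs_mem_Xk hk).2 hn)]
    rfl

/-- For every base `k ≥ 2` there is a set `X` of integers recognized by a finite automaton for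
which none of the three alternatives holds: `(ℤ, +, X)` is not stable, it does not define the same
sets as `(ℤ, <, +, k^ℕ)` (it does not define the order), and it does not define `V_k`. The set can
be taken to be the set of the nonzero integers `n` for which the exponent of the largest power of `k`
dividing `n` is even. -/
theorem result (k : ℕ) (hk : 2 ≤ k) : ∃ X : Set ℤ,
    X = {n | n ≠ 0 ∧ Even (multiplicity (k : ℤ) n)} ∧
    Recognized k X ∧
    ¬ IsStable (strX X) ∧
    ¬ Dfn (strX X) {v : Fin 2 → ℤ | v 0 < v 1} ∧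
    ¬ (∀ (n : ℕ) (D : Set (Fin n → ℤ)), Dfn (strX X) D ↔ Dfn (strP k) D) ∧
    ¬ Dfn (strX X) {v : Fin 2 → ℤ | v 1 = Vk k (v 0)} :=
  ⟨Xk k, rfl, recognized hk, unstable hk, not_def_lt hk,
    fun h => not_def_lt hk ((h 2 _).2 (def_lt k)), not_def_V hk⟩

end Pool.Agent.Results.MP_df2971_lc.NoTrichotomy
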